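import Pool.Agent.H223R3.Radial.Force

set_option autoImplicit false

open Set

namespace Pool.Agent.Results.MP_eab5ac_an.NotGlobalParameter

open Pool.Agent.H223R3.Radial

/-- The admissible nonlinearities: `f = f(r,u)` is continuously differentiable on
`[0,1] × [0,∞)` and its derivative in `r` is nonpositive there. -/
def Admissible (f : ℝ → ℝ → ℝ) : Prop :=
  ContDiffOn ℝ 1 (Function.uncurry f) (Icc 0 1 ×ˢ Ici 0) ∧
    ∀ r ∈ Icc (0 : ℝ) 1, ∀ u : ℝ, 0 ≤ u → derivWithin (fun t => f t u) (Icc 0 1) r ≤ 0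

/-- `u` is a (classical) positive solution of
`u'' + (n - 1)/r u' + lam f(r,u) = 0` on `(0,1)`, `u'(0) = u(1) = 0`, with `lam > 0`:
`u` is twice continuously differentiable on `[0,1]` and positive on `[0,1)`. -/
def PositiveSolution (n : ℝ) (f : ℝ → ℝ → ℝ) (lam : ℝ) (u : ℝ → ℝ) : Prop :=
  0 < lam ∧ ContDiffOn ℝ 2 u (Icc 0 1) ∧ derivWithin u (Icc 0 1) 0 = 0 ∧ u 1 = 0 ∧
    (∀ r : ℝ, 0 ≤ r → r < 1 → 0 < u r) ∧
    ∀ r ∈ Ioo (0 : ℝ) 1, deriv (deriv u) r + (n - 1) / r * deriv u r + lam * f r (u r) = 0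

/-- `u(0)` is a global parameter: it determines the solution pair `(lam, u)`. -/
def IsGlobalParameter (n : ℝ) (f : ℝ → ℝ → ℝ) : Prop :=
  ∀ (lam₁ lam₂ : ℝ) (u₁ u₂ : ℝ → ℝ), PositiveSolution n f lam₁ u₁ →
    PositiveSolution n f lam₂ u₂ → u₁ 0 = u₂ 0 → lam₁ = lam₂ ∧ EqOn u₁ u₂ (Icc 0 1)

/-- Each of the two sets of parameters gives a positive solution, in dimension three. -/
lemma solution (P : Par)
    (hF : ∀ w, 0 ≤ w → w ≤ 1 → mid RA w - mid RD w * (P.Y w / P.l) =
      (6 * P.Y' w ^ 2 - 4 * P.Y w * P.Y'' w) / P.Y' w ^ 3) :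
    PositiveSolution 3 ff P.l P.u := by
  refine ⟨P.hl, (P.chart.contDiff_u _).contDiffOn, ?_, P.u_one,
    fun r h0 h1 => P.u_pos h0 h1, fun r hr => eqn P hr.1 hr.2 hF⟩
  have h := (P.chart.hasDerivAt_u (19 / 10) 0)
  have h2 : HasDerivAt P.u 0 0 := by
    refine h.congr_deriv ?_
    simp
  exact h2.hasDerivWithinAt.derivWithin (uniqueDiffOn_Icc one_pos 0 (by simp))

/-- Q1 is answered in the negative, already in dimension `n = 3`: there is an admissible `f`
(continuously differentiable with `f_r ≤ 0`) for which `u(0)` is not a global parameter, that is,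
there are two distinct pairs `(lam, u)` of positive solutions with the same value `u(0)`. -/
theorem result : ∃ f : ℝ → ℝ → ℝ, Admissible f ∧ ¬ IsGlobalParameter 3 f := by
  refine ⟨ff, ⟨ff_contDiff.contDiffOn, fun r hr u _ => ?_⟩, fun h => ?_⟩
  · rw [((ff_hasDerivAt r u).hasDerivWithinAt).derivWithin (uniqueDiffOn_Icc one_pos r hr)]
    have h1 := DD_nonneg (19 / 10 - u)
    have h2 : 0 ≤ DD (19 / 10 - u) * (2 * r) := mul_nonneg h1 (by linarith [hr.1])
    linarith
  · have s1 : PositiveSolution 3 ff P1.l P1.u := solution P1 fun w h0 h1 => F1_eq h0 h1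
    have s2 : PositiveSolution 3 ff P2.l P2.u := solution P2 fun w _ _ => F2_eq w
    have := (h _ _ _ _ s1 s2 (by rw [P1.u_zero, P2.u_zero])).1
    have e1 : P1.l = 6400 / 121 := rfl
    have e2 : P2.l = 100 := rfl
    rw [e1, e2] at this
    norm_num at this

end Pool.Agent.Results.MP_eab5ac_an.NotGlobalParameter
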